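import Pool.Agent.R719.WD.Idm

set_option autoImplicit false

/-! Idempotent matrices `E` over the integral group ring of an arbitrary group such that each row of
the reflection `1 - 2E` is dominated by one coefficient, with respect to positive weights of the
columns, are conjugate to diagonal matrices with entries `0` and `1`. -/

namespace Pool.Agent.Results.MP_1a2884_al.DominatedReflections

open Matrix

section defs

variable {Γ : Type} [Group Γ]

/-- the sum of the absolute values of the coefficients -/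
def norm1 (x : MonoidAlgebra ℤ Γ) : ℕ := ∑ g ∈ x.coeff.support, (x.coeff g).natAbs

/-- Weighted dominance up to a permutation `σ` of the columns and group elements `g i`, with weights
`p j > 0`: the coefficient of `g i` in the entry at `(i, σ i)`, in absolute value and times `p (σ i)`,
is at least the weighted sum of the absolute values of all other coefficients in row `i`. -/
def WeightedDominantUpToMonomial {κ : Type} [Fintype κ] (S : Matrix κ κ (MonoidAlgebra ℤ Γ)) :
    Prop :=
  ∃ (σ : κ ≃ κ) (g : κ → Γ) (p : κ → ℝ), (∀ j, 0 < p j) ∧ ∀ i,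
    (∑ j, (norm1 (S i j) : ℝ) * p j) - |((S i (σ i)).coeff (g i) : ℝ)| * p (σ i)
      ≤ |((S i (σ i)).coeff (g i) : ℝ)| * p (σ i)

end defs

open Pool.Agent.Y35.KC.TTm Pool.Agent.R719.WD in
theorem result (Γ : Type) [Group Γ] (κ : Type) [Fintype κ] [DecidableEq κ]
    (E : Matrix κ κ (MonoidAlgebra ℤ Γ)) (hE : E * E = E)
    (h : WeightedDominantUpToMonomial (1 - 2 * E)) :
    (∃ (r : κ → ℕ) (w : κ → Γ), (∀ i j, r i < r j → E i j = 0) ∧
      ∀ i j, r i = r j → ∀ g, (E i j).coeff g ≠ 0 → g = w i * (w j)⁻¹) ∧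
    ∃ (X : (Matrix κ κ (MonoidAlgebra ℤ Γ))ˣ) (I : Finset κ),
      X.val * E * X⁻¹.val = Matrix.diagonal (fun i => if i ∈ I then 1 else 0) := by
  obtain ⟨σ, g, p, hp, hg⟩ := h
  have h1 : Blk E := blk_idem E hE σ g p hp (fun i => by
    have h2 := hg i
    have h3 : ∑ j, (l1 ((rfl2 E hE).val i j) : ℝ) * p j
        = ∑ j, (norm1 ((1 - 2 * E : Matrix κ κ (MonoidAlgebra ℤ Γ)) i j) : ℝ) * p j := rfl
    have h4 : (((rfl2 E hE).val i (σ i)).coeff (g i) : ℝ)
        = (((1 - 2 * E : Matrix κ κ (MonoidAlgebra ℤ Γ)) i (σ i)).coeff (g i) : ℝ) := rfl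
    rw [h3, h4]
    linarith)
  exact ⟨h1, conj_blk E hE h1⟩

end Pool.Agent.Results.MP_1a2884_al.DominatedReflections
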